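import Pool.Agent.H61.NVK.TargetsE2
import Pool.Agent.H87.HK.YC
import Pool.Agent.H87.HK.UI
import Pool.Agent.H87.HK.CT
import Pool.Agent.H66.HK.FD
import Pool.Agent.H63.HK.WP

/-!
# Row E_Z0I of the board `nvk_modules`: the constant term averaged over the units

Proved from the (closed) functional equation `Pool.Agent.H25.HK.T_TH` of the theta function.
-/

set_option autoImplicit false

open MeasureTheory Set Filter NumberField NumberField.InfinitePlace NumberField.Units
  NumberField.Units.dirichletUnitTheorem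
open Pool.Agent.H65.CM4 Pool.Agent.H61.CM4 Pool.Agent.H61.NVK
open scoped Real nonZeroDivisors

namespace Pool.Agent.H63.NVE_Z0I

/-- translates of a fundamental domain of a lattice -/
theorem shift {E : Type*} [NormedAddCommGroup E] [NormedSpace ℝ E] [MeasurableSpace E]
    [BorelSpace E] [FiniteDimensional ℝ E] (μ : Measure E) [μ.IsAddHaarMeasure]
    {κ : Type*} [Finite κ]
    (b : Module.Basis κ ℝ E) (L : Submodule ℤ E) (hL : Submodule.span ℤ (Set.range b) = L)
    (g : E → ℝ) (hg : ∀ z, ∀ l ∈ L, g (z + l) = g z) (a : E) :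
    ∫ z in ZSpan.fundamentalDomain b, g (z + a) ∂μ = ∫ z in ZSpan.fundamentalDomain b, g z ∂μ := by
  subst hL
  set F := ZSpan.fundamentalDomain b with hF
  have hd : IsAddFundamentalDomain (Submodule.span ℤ (Set.range b)) F μ :=
    ZSpan.isAddFundamentalDomain b μ
  have : Countable (Submodule.span ℤ (Set.range b)) := inferInstance
  have : VAddInvariantMeasure (Submodule.span ℤ (Set.range b)) E μ :=
    inferInstanceAs (VAddInvariantMeasure (Submodule.span ℤ (Set.range b)).toAddSubgroup E μ)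
  have hmp : MeasurePreserving (fun z : E => z + (-a)) μ μ := measurePreserving_add_right μ (-a)
  have hsh : IsAddFundamentalDomain (Submodule.span ℤ (Set.range b))
      ((fun z : E => z + (-a)) ⁻¹' F) μ := by
    refine hd.preimage_of_equiv (f := fun z : E => z + (-a))
      hmp.quasiMeasurePreserving (e := id) Function.bijective_id ?_
    intro l z
    simp [Submodule.vadd_def, vadd_eq_add, add_assoc]
  have h1 : ∫ z in F, g (z + a) ∂μ = ∫ z in (fun z : E => z + (-a)) ⁻¹' F, g z ∂μ := by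
    have := hmp.setIntegral_preimage_emb
      (MeasurableEquiv.addRight (-a)).measurableEmbedding (fun z => g (z + a)) F
    simpa using this.symm
  rw [h1]
  refine hsh.setIntegral_eq hd ?_
  intro l z
  rw [Submodule.vadd_def, vadd_eq_add, add_comm]
  exact hg z l l.2

section

variable (K : Type) [Field K] [NumberField K]

/-- the coordinates are additive -/
theorem yc_add (τ τ' : ℝ) (z z' : logSpace K) (v : InfinitePlace K) :
    Pool.Agent.H25.HK.yc K (τ + τ') (z + z') v =
      Pool.Agent.H25.HK.yc K τ z v + Pool.Agent.H25.HK.yc K τ' z' v := by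
  by_cases h : v = w₀
  · subst h
    rw [Pool.Agent.H87.HK.yc_w0, Pool.Agent.H87.HK.yc_w0, Pool.Agent.H87.HK.yc_w0]
    simp only [Pi.add_apply, Finset.sum_add_distrib]
    ring
  · have h1 := Pool.Agent.H87.HK.yc_ne K (τ + τ') (z + z') ⟨v, h⟩
    have h2 := Pool.Agent.H87.HK.yc_ne K τ z ⟨v, h⟩
    have h3 := Pool.Agent.H87.HK.yc_ne K τ' z' ⟨v, h⟩
    simp only at h1 h2 h3
    rw [h1, h2, h3, Pi.add_apply]
    ring

/-- the coordinates are onto -/
theorem yc_onto [IsTotallyReal K] (w : InfinitePlace K → ℝ) :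
    ∃ z : logSpace K, ∀ v, Pool.Agent.H25.HK.yc K ((∑ u, w u) / 2) z v = w v := by
  classical
  have hn : (Module.finrank ℚ K : ℝ) ≠ 0 := by
    exact_mod_cast (Module.finrank_pos (R := ℚ) (M := K)).ne'
  have hm : ∀ v : InfinitePlace K, (v.mult : ℝ) = 1 := by
    intro v
    have := mult_isReal ⟨v, IsTotallyReal.isReal v⟩
    exact_mod_cast this
  refine ⟨fun v => (w v - (∑ u, w u) / Module.finrank ℚ K) / 2, fun v => ?_⟩
  by_cases h : v = w₀
  · subst h
    rw [Pool.Agent.H87.HK.yc_w0, hm]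
    have h1 : ∑ u, w u = w w₀ + ∑ v : {w : InfinitePlace K // w ≠ w₀}, w v :=
      Fintype.sum_eq_add_sum_subtype_ne _ w₀
    have h3 : (1 : ℝ) + ∑ v : {w : InfinitePlace K // w ≠ w₀}, (1 : ℝ) =
        Module.finrank ℚ K := by
      rw [← sum_mult_eq (K := K), Nat.cast_sum, Fintype.sum_eq_add_sum_subtype_ne _ w₀]
      simp only [hm]
    have h2 : ∑ v : {w : InfinitePlace K // w ≠ w₀},
        (w v - (∑ u, w u) / Module.finrank ℚ K) / 2 =
        ((∑ v : {w : InfinitePlace K // w ≠ w₀}, w v) -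
          (Module.finrank ℚ K - 1) * ((∑ u, w u) / Module.finrank ℚ K)) / 2 := by
      rw [← Finset.sum_div, Finset.sum_sub_distrib, ← h3]
      simp
    rw [h2]
    have h4 : ∑ v : {w : InfinitePlace K // w ≠ w₀}, w v = (∑ u, w u) - w w₀ := by
      rw [h1]; ring
    rw [h4]
    field_simp
    ring
  · have h1 := Pool.Agent.H87.HK.yc_ne K ((∑ u, w u) / 2)
      (fun v => (w v - (∑ u, w u) / Module.finrank ℚ K) / 2) ⟨v, h⟩
    simp only at h1
    rw [h1, hm]
    ring

end

open scoped Classical in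
/-- (TRI) the integral of a translate of the theta function -/
theorem tri {k : Type} [Field k] [NumberField k] [IsTotallyReal k] (I : Pool.Agent.H25.HK.FI k)
    (t : ℝ) (ht : 0 < t) (w : Pl k → ℝ) :
    ∃ z' : logSpace k,
    (∀ z, (fun v => Pool.Agent.H25.HK.yc k (Real.log t) z v + w v) =
      Pool.Agent.H25.HK.yc k (Real.log (t * Real.exp ((∑ v, w v) / 2))) (z + z')) ∧
    ∫ z in Pool.Agent.H25.HK.Fd k, Pool.Agent.H25.HK.th k I
      (fun v => Pool.Agent.H25.HK.yc k (Real.log t) z v + w v) =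
      Pool.Agent.H25.HK.ff k I (t * Real.exp ((∑ v, w v) / 2)) := by
  obtain ⟨z', hz'⟩ := yc_onto k w
  have h1 : ∀ z, (fun v => Pool.Agent.H25.HK.yc k (Real.log t) z v + w v) =
      Pool.Agent.H25.HK.yc k (Real.log (t * Real.exp ((∑ v, w v) / 2))) (z + z') := by
    intro z
    funext v
    rw [Real.log_mul ht.ne' (Real.exp_pos _).ne', Real.log_exp, yc_add, hz']
  refine ⟨z', h1, ?_⟩
  simp only [h1]
  unfold Pool.Agent.H25.HK.ff
  refine shift (volume : Measure (logSpace k))
    ((basisUnitLattice k).ofZLatticeBasis ℝ (unitLattice k)) (unitLattice k)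
    ((basisUnitLattice k).ofZLatticeBasis_span ℝ)
    (fun z => Pool.Agent.H25.HK.th k I
      (Pool.Agent.H25.HK.yc k (Real.log (t * Real.exp ((∑ v, w v) / 2))) z)) ?_ z'
  intro z l hl
  obtain ⟨u, rfl⟩ := Pool.Agent.H63.HK.mem_unitLattice_exists k l hl
  exact (Pool.Agent.H87.HK.ui Pool.Agent.H87.HK.yc_main k I _ z u).2

open scoped Classical in
/-- integrability -/
theorem th_int' {k : Type} [Field k] [NumberField k] (hTH : Pool.Agent.H25.HK.T_TH)
    (I : Pool.Agent.H25.HK.FI k) (hI : I ≠ 0) (τ : ℝ) (a : logSpace k) :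
    IntegrableOn (fun z => Pool.Agent.H25.HK.th k I (Pool.Agent.H25.HK.yc k τ (z + a)))
      (Pool.Agent.H25.HK.Fd k) := by
  obtain ⟨hmeas, ⟨B, hB⟩, -⟩ := Pool.Agent.H66.HK.fd k
  have h0 : Continuous (fun z : logSpace k => Pool.Agent.H25.HK.th k I
      (Pool.Agent.H25.HK.yc k τ z)) :=
    (Pool.Agent.H63.HK.cont_th k (Pool.Agent.H87.HK.ct hTH) Pool.Agent.H87.HK.yc_main I hI).comp
      (Continuous.prodMk_right τ)
  have h1 : Continuous (fun z : logSpace k => Pool.Agent.H25.HK.th k I
      (Pool.Agent.H25.HK.yc k τ (z + a))) := h0.comp (continuous_add_const a)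
  exact (h1.continuousOn.integrableOn_compact (Pool.Agent.H63.HK.bx_compact k B)).mono_set
    (Pool.Agent.H63.HK.fd_sub k B hB)

open scoped Classical in
theorem pf_Z0I (hTH : Pool.Agent.H25.HK.T_TH) : T_Z0I := by
  intro k _ _ _ I J y t hI hJ hy ht
  have hCT := Pool.Agent.H87.HK.ct hTH
  have hFD := Pool.Agent.H66.HK.fd
  have hYC := Pool.Agent.H87.HK.yc_main
  have hm : ∀ v : Pl k, (v.mult : ℝ) = 1 := by
    intro v
    have := mult_isReal ⟨v, IsTotallyReal.isReal v⟩
    exact_mod_cast this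
  have hP : 0 < ∏ v, y v := Finset.prod_pos fun v _ => hy v
  have hlog : ∑ v, Real.log (y v) = Real.log (∏ v, y v) :=
    (Real.log_prod (fun v _ => (hy v).ne')).symm
  have hsq : Real.exp (Real.log (∏ v, y v) / 2) = Real.sqrt (∏ v, y v) := by
    rw [Real.exp_half, Real.exp_log hP]
  -- the two translates
  obtain ⟨z1, h1, i1⟩ := tri I t ht (fun v => -Real.log (y v))
  obtain ⟨z2, h2, i2⟩ := tri J t ht (fun v => Real.log (y v))
  have e1 : t * Real.exp ((∑ v, -Real.log (y v)) / 2) = t / Real.sqrt (∏ v, y v) := by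
    rw [Finset.sum_neg_distrib, hlog, neg_div, Real.exp_neg, hsq, div_eq_mul_inv]
  have e2 : t * Real.exp ((∑ v, Real.log (y v)) / 2) = t * Real.sqrt (∏ v, y v) := by
    rw [hlog, hsq]
  rw [e1] at h1 i1
  rw [e2] at h2 i2
  -- the factor
  have hsum : ∀ z, ∑ v, Pool.Agent.H25.HK.yc k (Real.log t) z v = 2 * Real.log t := by
    intro z
    have := (hYC k).1 (Real.log t) z
    simpa only [hm, one_mul] using this
  have heF : ∀ z, eF I y (Pool.Agent.H25.HK.yc k (Real.log t) z) =
      Real.sqrt (∏ v, y v) / (cF I * t) := by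
    intro z
    unfold eF
    rw [Finset.sum_sub_distrib, hsum, hlog]
    have : -(2 * Real.log t - Real.log (∏ v, y v)) / 2 =
        Real.log (∏ v, y v) / 2 - Real.log t := by ring
    rw [this, Real.exp_sub, hsq, Real.exp_log ht, div_div, mul_comm t]
  -- integrability
  have int1 : IntegrableOn (fun z => Pool.Agent.H25.HK.th k I
      (fun v => Pool.Agent.H25.HK.yc k (Real.log t) z v + -Real.log (y v)))
      (Pool.Agent.H25.HK.Fd k) := by
    simp only [h1]
    exact th_int' hTH I hI _ z1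
  have int2 : IntegrableOn (fun z => Pool.Agent.H25.HK.th k J
      (fun v => Pool.Agent.H25.HK.yc k (Real.log t) z v + Real.log (y v)))
      (Pool.Agent.H25.HK.Fd k) := by
    simp only [h2]
    exact th_int' hTH J hJ _ z2
  have hfin : volume (Pool.Agent.H25.HK.Fd k) ≠ ⊤ := (hFD k).2.2.2.1.ne
  have int3 : IntegrableOn (fun _ : logSpace k => (1 : ℝ)) (Pool.Agent.H25.HK.Fd k) :=
    integrableOn_const hfin
  have hZ : ∀ z, Z0 I J y (Pool.Agent.H25.HK.yc k (Real.log t) z) =
      Pool.Agent.H25.HK.th k I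
        (fun v => Pool.Agent.H25.HK.yc k (Real.log t) z v + -Real.log (y v)) +
      Real.sqrt (∏ v, y v) / (cF I * t) * (Pool.Agent.H25.HK.th k J
        (fun v => Pool.Agent.H25.HK.yc k (Real.log t) z v + Real.log (y v)) - 1) := by
    intro z
    unfold Z0
    rw [heF]
    rfl
  have int4 : IntegrableOn (fun z => Pool.Agent.H25.HK.th k J
      (fun v => Pool.Agent.H25.HK.yc k (Real.log t) z v + Real.log (y v)) - 1)
      (Pool.Agent.H25.HK.Fd k) := int2.sub int3
  have int5 : IntegrableOn (fun z => Real.sqrt (∏ v, y v) / (cF I * t) *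
      (Pool.Agent.H25.HK.th k J
      (fun v => Pool.Agent.H25.HK.yc k (Real.log t) z v + Real.log (y v)) - 1))
      (Pool.Agent.H25.HK.Fd k) := int4.const_mul _
  unfold z0
  simp only [hZ]
  rw [integral_add int1 int5, integral_const_mul, integral_sub int2 int3, i1, i2]
  have hv : ∫ _ in Pool.Agent.H25.HK.Fd k, (1 : ℝ) = vR k := by
    rw [setIntegral_const, smul_eq_mul, mul_one]
    rfl
  rw [hv]
  rfl

end Pool.Agent.H63.NVE_Z0I
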